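import Pool.Agent.D0H81.YN.Stm

/-!
# YN block, package CI: circles around a zero
-/

set_option autoImplicit false
open MeasureTheory Filter Topology Complex Metric Set
open scoped ContDiff ENNReal

namespace Pool.Agent.D0H70.YN

open Pool.Agent.Q73.NL (dx dy lap)
open Pool.Agent.D0H81.YN (gn P S_CI)

noncomputable section

theorem gn_nonneg (u : ℂ → ℝ) (z : ℂ) : 0 ≤ gn u z := Real.sqrt_nonneg _

theorem fderiv_le (u : ℂ → ℝ) (z v : ℂ) : |fderiv ℝ u z v| ≤ gn u z * ‖v‖ := by
  have h1 : fderiv ℝ u z v = v.re * dx u z + v.im * dy u z := by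
    have : v = (v.re : ℝ) • (1 : ℂ) + (v.im : ℝ) • I := by
      apply Complex.ext <;> simp
    conv_lhs => rw [this]
    rw [map_add, map_smul, map_smul]
    simp [dx, dy, smul_eq_mul]
  rw [h1]
  have h2 : ‖v‖ = Real.sqrt (v.re ^ 2 + v.im ^ 2) := by
    rw [Complex.norm_def, Complex.normSq_apply]
    ring_nf
  rw [h2, gn, ← Real.sqrt_mul (by positivity)]
  apply Real.abs_le_sqrt
  nlinarith [sq_nonneg (v.re * dy u z - v.im * dx u z)]

/-- the norm of the gradient of `arctan (u / ε)` -/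
def D (u : ℂ → ℝ) (ε : ℝ) (z : ℂ) : ℝ := ε / (ε ^ 2 + u z ^ 2) * gn u z

theorem D_nonneg (u : ℂ → ℝ) {ε : ℝ} (hε : 0 < ε) (z : ℂ) : 0 ≤ D u ε z :=
  mul_nonneg (by positivity) (gn_nonneg u z)

/-- pointwise comparison -/
theorem pt (u : ℂ → ℝ) {ε : ℝ} (hε : 0 < ε) (z : ℂ) :
    D u ε z - 1 / 2 ≤ ε / (ε ^ 2 + u z ^ 2) * (gn u z ^ 2 / Real.sqrt (P u (ε ^ 2) z)) := by
  have ha := gn_nonneg u z
  set a := gn u z with ha'
  have hP : P u (ε ^ 2) z = u z ^ 2 + a ^ 2 + ε ^ 2 := by
    rw [ha', gn, Real.sq_sqrt (by positivity), P]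
    ring
  set s := Real.sqrt (P u (ε ^ 2) z) with hs
  have hPpos : 0 < P u (ε ^ 2) z := by
    rw [hP]; positivity
  have hspos : 0 < s := Real.sqrt_pos.2 hPpos
  have hs2 : s ^ 2 = u z ^ 2 + a ^ 2 + ε ^ 2 := by
    rw [hs, Real.sq_sqrt hPpos.le, hP]
  have hεs : ε ≤ s := by
    apply le_of_sq_le_sq _ hspos.le
    rw [hs2]; nlinarith [sq_nonneg (u z), sq_nonneg a]
  have has : a ≤ s := by
    apply le_of_sq_le_sq _ hspos.le
    rw [hs2]; nlinarith [sq_nonneg (u z), sq_nonneg ε]
  have hb : 0 < ε ^ 2 + u z ^ 2 := by positivity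
  -- D - F = ε a (s - a) / (b^2 s) = ε a / (s (s + a))
  have key : D u ε z - ε / (ε ^ 2 + u z ^ 2) * (a ^ 2 / s) = ε * a / (s * (s + a)) := by
    have h1 : D u ε z = ε / (ε ^ 2 + u z ^ 2) * a := rfl
    rw [h1]
    have h2 : ε ^ 2 + u z ^ 2 = (s - a) * (s + a) := by nlinarith
    have h3 : 0 < s + a := by positivity
    have h4 : s - a ≠ 0 := by
      intro h; rw [h2, h, zero_mul] at hb; exact lt_irrefl _ hb
    rw [h2]
    field_simp
  have h5 : ε * a / (s * (s + a)) ≤ 1 / 2 := by
    rw [div_le_div_iff₀ (by positivity) (by norm_num)]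
    nlinarith [mul_le_mul hεs (le_refl a) ha hspos.le, mul_nonneg hspos.le ha, mul_nonneg hspos.le (sub_nonneg.2 has)]
  linarith

section
variable {u : ℂ → ℝ} {y : ℂ} {R : ℝ}

theorem cont_u (h : ∀ z ∈ closedBall y R, ContDiffAt ℝ ∞ u z) {z : ℂ} (hz : z ∈ closedBall y R) :
    ContinuousAt u z := (h z hz).continuousAt

theorem cont_fd (h : ∀ z ∈ closedBall y R, ContDiffAt ℝ ∞ u z) {z : ℂ} (hz : z ∈ closedBall y R) :
    ContinuousAt (fderiv ℝ u) z := by
  have h1 : ContDiffAt ℝ 0 (fderiv ℝ u) z := (h z hz).fderiv_right (by simp)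
  exact h1.continuousAt

theorem cont_gn (h : ∀ z ∈ closedBall y R, ContDiffAt ℝ ∞ u z) {z : ℂ} (hz : z ∈ closedBall y R) :
    ContinuousAt (gn u) z := by
  have h1 := cont_fd h hz
  have hx : ContinuousAt (dx u) z := h1.clm_apply continuousAt_const
  have hy : ContinuousAt (dy u) z := h1.clm_apply continuousAt_const
  exact ((hx.pow 2).add (hy.pow 2)).sqrt

theorem cont_D (h : ∀ z ∈ closedBall y R, ContDiffAt ℝ ∞ u z) {ε : ℝ} (hε : 0 < ε) {z : ℂ}
    (hz : z ∈ closedBall y R) : ContinuousAt (D u ε) z := by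
  refine ContinuousAt.mul (ContinuousAt.div continuousAt_const
    (continuousAt_const.add ((cont_u h hz).pow 2)) (by positivity)) (cont_gn h hz)

theorem cont_F (h : ∀ z ∈ closedBall y R, ContDiffAt ℝ ∞ u z) {ε : ℝ} (hε : 0 < ε) {z : ℂ}
    (hz : z ∈ closedBall y R) :
    ContinuousAt (fun z => ε / (ε ^ 2 + u z ^ 2) * (gn u z ^ 2 / Real.sqrt (P u (ε ^ 2) z))) z := by
  have h1 := cont_fd h hz
  have hx : ContinuousAt (dx u) z := h1.clm_apply continuousAt_const
  have hy : ContinuousAt (dy u) z := h1.clm_apply continuousAt_const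
  have hP : ContinuousAt (P u (ε ^ 2)) z :=
    ((((cont_u h hz).pow 2).add (hx.pow 2)).add (hy.pow 2)).add continuousAt_const
  have hPpos : 0 < P u (ε ^ 2) z := by
    unfold P; positivity
  refine ContinuousAt.mul (ContinuousAt.div continuousAt_const
    (continuousAt_const.add ((cont_u h hz).pow 2)) (by positivity))
    (((cont_gn h hz).pow 2).div hP.sqrt (Real.sqrt_pos.2 hPpos).ne')

/-- the variation along a circle -/
theorem circle (h : ∀ z ∈ closedBall y R, ContDiffAt ℝ ∞ u z) {ε r : ℝ} (hε : 0 < ε) (hr : 0 < r)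
    (hrR : r ≤ R) (h1 : ∃ z ∈ sphere y r, ε ≤ u z) (h2 : ∃ z ∈ sphere y r, u z ≤ -ε) :
    Real.pi / 2 ≤ ∫ t in (-Real.pi)..Real.pi, r * D u ε (y + r * exp (t * I)) := by
  set c : ℝ → ℂ := fun t => y + r * exp (t * I) with hc
  have hcm : ∀ t, c t ∈ closedBall y R := by
    intro t
    rw [mem_closedBall, dist_eq_norm]
    simp only [hc, add_sub_cancel_left, norm_mul, Complex.norm_exp_ofReal_mul_I, mul_one]
    rw [Complex.norm_real, Real.norm_eq_abs, abs_of_pos hr]
    exact hrR
  have hcd : ∀ t : ℝ, HasDerivAt c (r * (I * exp (t * I))) t := by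
    intro t
    have e1 : HasDerivAt (fun t : ℝ => (t : ℂ) * I) (1 * I) t :=
      (Complex.ofRealCLM.hasDerivAt (x := t)).mul_const I
    have e2 := e1.cexp
    have e3 := (e2.const_mul (r : ℂ)).const_add y
    have e4 : (r : ℂ) * (I * exp (t * I)) = (r : ℂ) * (exp (t * I) * (1 * I)) := by ring
    rw [e4]
    exact e3
  have hcc : Continuous c := by
    rw [continuous_iff_continuousAt]; exact fun t => (hcd t).continuousAt
  set w : ℝ → ℝ := fun t => r * D u ε (c t) with hw
  have hwc : Continuous w := by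
    rw [continuous_iff_continuousAt]
    intro t
    exact continuousAt_const.mul ((cont_D h hε (hcm t)).comp hcc.continuousAt)
  have hw0 : ∀ t, 0 ≤ w t := fun t => mul_nonneg hr.le (D_nonneg u hε _)
  set g : ℝ → ℝ := fun t => Real.arctan (u (c t) / ε) with hg
  have hgd : ∀ t, HasDerivAt g (1 / (1 + (u (c t) / ε) ^ 2) *
      (fderiv ℝ u (c t) (r * (I * exp (t * I))) / ε)) t := by
    intro t
    have e1 : HasFDerivAt u (fderiv ℝ u (c t)) (c t) :=
      ((h _ (hcm t)).differentiableAt (by simp)).hasFDerivAt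
    have e2 := e1.comp_hasDerivAt t (hcd t)
    exact (e2.div_const ε).arctan
  have hgw : ∀ t, |1 / (1 + (u (c t) / ε) ^ 2) *
      (fderiv ℝ u (c t) (r * (I * exp (t * I))) / ε)| ≤ w t := by
    intro t
    have e1 := fderiv_le u (c t) (r * (I * exp (t * I)))
    have e2 : ‖(r : ℂ) * (I * exp (t * I))‖ = r := by
      simp only [norm_mul, Complex.norm_exp_ofReal_mul_I, mul_one, Complex.norm_I]
      rw [Complex.norm_real, Real.norm_eq_abs, abs_of_pos hr]
    rw [e2] at e1
    have e3 : 1 / (1 + (u (c t) / ε) ^ 2) = ε ^ 2 / (ε ^ 2 + u (c t) ^ 2) := by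
      field_simp
    have e4 : (0:ℝ) ≤ ε ^ 2 / (ε ^ 2 + u (c t) ^ 2) := by positivity
    rw [e3, abs_mul, abs_of_nonneg e4, abs_div, abs_of_pos hε]
    calc ε ^ 2 / (ε ^ 2 + u (c t) ^ 2) * (|fderiv ℝ u (c t) (r * (I * exp (t * I)))| / ε)
        ≤ ε ^ 2 / (ε ^ 2 + u (c t) ^ 2) * (gn u (c t) * r / ε) := by gcongr
      _ = w t := by
        simp only [hw, D]
        field_simp
  set K : ℝ → ℝ := fun t => ∫ s in (-Real.pi)..t, w s with hK
  have hKd : ∀ t, HasDerivAt K (w t) t := fun t =>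
    intervalIntegral.integral_hasDerivAt_right (hwc.intervalIntegrable _ _)
      (hwc.stronglyMeasurableAtFilter _ _) hwc.continuousAt
  have m0 : Monotone K := monotone_of_deriv_nonneg (fun t => (hKd t).differentiableAt)
    (fun t => by rw [(hKd t).deriv]; exact hw0 t)
  have m1 : Monotone (fun t => K t - g t) := by
    apply monotone_of_deriv_nonneg (fun t => ((hKd t).sub (hgd t)).differentiableAt)
    intro t
    rw [((hKd t).sub (hgd t)).deriv]
    have := (abs_le.1 (hgw t)).2
    linarith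
  have m2 : Monotone (fun t => K t + g t) := by
    apply monotone_of_deriv_nonneg (fun t => ((hKd t).add (hgd t)).differentiableAt)
    intro t
    rw [((hKd t).add (hgd t)).deriv]
    have := (abs_le.1 (hgw t)).1
    linarith
  have par : ∀ z ∈ sphere y r, ∃ t ∈ Icc (-Real.pi) Real.pi, c t = z := by
    intro z hz
    refine ⟨arg (z - y), ⟨(neg_pi_lt_arg _).le, arg_le_pi _⟩, ?_⟩
    have e : ‖z - y‖ = r := by rw [← dist_eq_norm]; exact hz
    simp only [hc]
    rw [← e, Complex.norm_mul_exp_arg_mul_I]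
    ring
  obtain ⟨z1, hz1, hu1⟩ := h1
  obtain ⟨z2, hz2, hu2⟩ := h2
  obtain ⟨t1, ht1, e1⟩ := par z1 hz1
  obtain ⟨t2, ht2, e2⟩ := par z2 hz2
  have g1 : Real.pi / 4 ≤ g t1 := by
    simp only [hg]
    rw [e1, ← Real.arctan_one]
    apply Real.arctan_strictMono.monotone
    rw [le_div_iff₀ hε]; linarith
  have g2 : g t2 ≤ -(Real.pi / 4) := by
    simp only [hg]
    rw [e2, ← Real.arctan_one, ← Real.arctan_neg]
    apply Real.arctan_strictMono.monotone
    rw [div_le_iff₀ hε]; linarith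
  have k1 : K Real.pi = ∫ t in (-Real.pi)..Real.pi, r * D u ε (y + r * exp (t * I)) := rfl
  have k0 : K (-Real.pi) = 0 := by simp [hK]
  rw [← k1]
  rcases le_total t1 t2 with h12 | h12
  · have a := m2 h12
    have b := m0 ht1.1
    have c' := m0 ht2.2
    simp only at a
    linarith
  · have a := m1 h12
    have b := m0 ht2.1
    have c' := m0 ht1.2
    simp only at a
    linarith

/-- the integral over the annulus -/
theorem annulus (f : ℂ → ℝ) (y : ℂ) (a b m : ℝ) (ha : 0 < a) (hab : a ≤ b)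
    (hf : ∀ z ∈ closedBall y b, ContinuousAt f z) (hf0 : ∀ z, 0 ≤ f z)
    (hm : ∀ r ∈ Icc a b, m ≤ ∫ t in (-Real.pi)..Real.pi, r * f (y + r * exp (t * I))) :
    m * (b - a) ≤ ∫ z in (ball y b \ closedBall y a), f z := by
  set A : Set ℂ := ball y b \ closedBall y a with hA
  have hAm : MeasurableSet A := measurableSet_ball.diff measurableSet_closedBall
  -- translate to the origin
  set F : ℂ → ℝ := fun z => A.indicator f (y + z) with hF
  have e1 : ∫ z in A, f z = ∫ z, F z := by
    rw [← integral_indicator hAm]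
    exact (integral_add_left_eq_self (fun z => A.indicator f z) y).symm
  rw [e1, ← Complex.integral_comp_polarCoord_symm]
  set H : ℝ × ℝ → ℝ := fun p => p.1 * f (y + p.1 * exp (p.2 * I)) with hH
  have hHc : ContinuousOn H (Icc a b ×ˢ Icc (-Real.pi) Real.pi) := by
    intro p hp
    have hp1 : 0 < p.1 := lt_of_lt_of_le ha hp.1.1
    apply ContinuousAt.continuousWithinAt
    have hmem : y + (p.1 : ℂ) * exp (p.2 * I) ∈ closedBall y b := by
      rw [mem_closedBall, dist_eq_norm]
      simp only [add_sub_cancel_left, norm_mul, Complex.norm_exp_ofReal_mul_I, mul_one]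
      rw [Complex.norm_real, Real.norm_eq_abs, abs_of_pos hp1]
      exact hp.1.2
    have hc : Continuous (fun p : ℝ × ℝ => y + (p.1 : ℂ) * exp (p.2 * I)) := by fun_prop
    exact continuousAt_fst.mul (ContinuousAt.comp (g := f) (hf _ hmem) hc.continuousAt)
  have hHi : IntegrableOn H (Ioo a b ×ˢ Ioo (-Real.pi) Real.pi) :=
    (hHc.integrableOn_compact (isCompact_Icc.prod isCompact_Icc)).mono_set
      (prod_mono Ioo_subset_Icc_self Ioo_subset_Icc_self)
  have hsub : Ioo a b ×ˢ Ioo (-Real.pi) Real.pi ⊆ polarCoord.target := by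
    intro p hp
    exact ⟨ha.trans hp.1.1, hp.2⟩
  have e2 : ∫ p in polarCoord.target, p.1 • F (Complex.polarCoord.symm p) =
      ∫ p in Ioo a b ×ˢ Ioo (-Real.pi) Real.pi, H p := by
    rw [setIntegral_eq_of_subset_of_forall_diff_eq_zero
      (polarCoord.open_target.measurableSet) hsub]
    · apply setIntegral_congr_fun (measurableSet_Ioo.prod measurableSet_Ioo)
      intro p hp
      have hp1 : 0 < p.1 := ha.trans hp.1.1
      simp only [hF, hH, smul_eq_mul]
      have e3 : Complex.polarCoord.symm p = (p.1 : ℂ) * exp (p.2 * I) := by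
        rw [Complex.polarCoord_symm_apply, Complex.exp_mul_I]
        simp
      rw [e3, indicator_of_mem]
      have hn : dist (y + (p.1 : ℂ) * exp (p.2 * I)) y = p.1 := by
        rw [dist_eq_norm]
        simp only [add_sub_cancel_left, norm_mul, Complex.norm_exp_ofReal_mul_I, mul_one]
        rw [Complex.norm_real, Real.norm_eq_abs, abs_of_pos hp1]
      refine ⟨?_, ?_⟩
      · rw [mem_ball, hn]; exact hp.1.2
      · rw [mem_closedBall, hn, not_le]; exact hp.1.1
    · intro p hp
      have hpt : p ∈ Ioi (0 : ℝ) ×ˢ Ioo (-Real.pi) Real.pi := hp.1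
      have hp1 : 0 < p.1 := hpt.1
      simp only [hF, smul_eq_mul]
      have e3 : Complex.polarCoord.symm p = (p.1 : ℂ) * exp (p.2 * I) := by
        rw [Complex.polarCoord_symm_apply, Complex.exp_mul_I]
        simp
      have hn : dist (y + (p.1 : ℂ) * exp (p.2 * I)) y = p.1 := by
        rw [dist_eq_norm]
        simp only [add_sub_cancel_left, norm_mul, Complex.norm_exp_ofReal_mul_I, mul_one]
        rw [Complex.norm_real, Real.norm_eq_abs, abs_of_pos hp1]
      rw [e3, indicator_of_notMem, mul_zero]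
      intro hmem
      apply hp.2
      have h1 := hmem.1
      have h2 := hmem.2
      rw [mem_ball, hn] at h1
      rw [mem_closedBall, hn, not_le] at h2
      exact ⟨⟨h2, h1⟩, hpt.2⟩
  rw [e2]
  have e4 : ∫ p in Ioo a b ×ˢ Ioo (-Real.pi) Real.pi, H p =
      ∫ r in Ioo a b, ∫ t in Ioo (-Real.pi) Real.pi, H (r, t) := by
    exact setIntegral_prod H hHi
  rw [e4]
  have hinner : ∀ r ∈ Ioo a b, m ≤ ∫ t in Ioo (-Real.pi) Real.pi, H (r, t) := by
    intro r hr
    have := hm r ⟨hr.1.le, hr.2.le⟩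
    rw [intervalIntegral.integral_of_le (by linarith [Real.pi_pos]),
      integral_Ioc_eq_integral_Ioo] at this
    exact this
  have hint : IntegrableOn (fun r => ∫ t in Ioo (-Real.pi) Real.pi, H (r, t)) (Ioo a b) := by
    have h0 : Integrable H ((volume.restrict (Ioo a b)).prod
        (volume.restrict (Ioo (-Real.pi) Real.pi))) := by
      rw [Measure.prod_restrict]
      exact hHi
    exact h0.integral_prod_left
  have e5 : m * (b - a) = ∫ r in Ioo a b, m := by
    rw [setIntegral_const, smul_eq_mul, measureReal_def, Real.volume_Ioo,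
      ENNReal.toReal_ofReal (by linarith)]
    ring
  rw [e5]
  exact setIntegral_mono_on (integrableOn_const (by simp) (by simp)) hint measurableSet_Ioo hinner

theorem area (y : ℂ) (δ : ℝ) (hδ : 0 < δ) :
    ∫ _ in (ball y (2 * δ) \ closedBall y δ), (1 / 2 : ℝ) = 3 * Real.pi / 2 * δ ^ 2 := by
  have hsub : closedBall y δ ⊆ ball y (2 * δ) := closedBall_subset_ball (by linarith)
  rw [setIntegral_const, smul_eq_mul, measureReal_def, measure_sdiff hsub
    measurableSet_closedBall.nullMeasurableSet measure_closedBall_lt_top.ne]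
  rw [Complex.volume_ball, Complex.volume_closedBall, ENNReal.toReal_sub_of_le]
  · simp only [ENNReal.toReal_mul, ENNReal.toReal_pow, ENNReal.coe_toReal, NNReal.coe_real_pi]
    rw [ENNReal.toReal_ofReal (by linarith), ENNReal.toReal_ofReal hδ.le]
    ring
  · gcongr
    linarith
  · exact ENNReal.mul_ne_top (ENNReal.pow_ne_top ENNReal.ofReal_ne_top) (by simp)

theorem t_CI : S_CI := by
  intro u y δ ε hδ hδ2 hε hu hsig
  set F : ℂ → ℝ := fun z => ε / (ε ^ 2 + u z ^ 2) * (gn u z ^ 2 / Real.sqrt (P u (ε ^ 2) z)) with hF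
  set A : Set ℂ := ball y (2 * δ) \ closedBall y δ with hA
  have hAm : MeasurableSet A := measurableSet_ball.diff measurableSet_closedBall
  have hF0 : ∀ z, 0 ≤ F z := fun z => by
    simp only [hF]
    positivity
  have hFi : IntegrableOn F (ball y (2 * δ)) := by
    have : ContinuousOn F (closedBall y (2 * δ)) := fun z hz => (cont_F hu hε hz).continuousWithinAt
    exact (this.integrableOn_compact (isCompact_closedBall _ _)).mono_set ball_subset_closedBall
  have hDi : IntegrableOn (D u ε) (ball y (2 * δ)) := by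
    have : ContinuousOn (D u ε) (closedBall y (2 * δ)) :=
      fun z hz => (cont_D hu hε hz).continuousWithinAt
    exact (this.integrableOn_compact (isCompact_closedBall _ _)).mono_set ball_subset_closedBall
  have hAs : A ⊆ ball y (2 * δ) := sdiff_subset
  have h1 : ∫ z in A, F z ≤ ∫ z in ball y (2 * δ), F z :=
    setIntegral_mono_set hFi (ae_of_all _ hF0) (LE.le.eventuallyLE hAs)
  have hcI : IntegrableOn (fun _ : ℂ => (1 / 2 : ℝ)) A :=
    integrableOn_const ((measure_mono hAs).trans_lt measure_ball_lt_top).ne (by simp)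
  have h2 : ∫ z in A, (D u ε z - 1 / 2) ≤ ∫ z in A, F z :=
    setIntegral_mono_on ((hDi.mono_set hAs).sub hcI) (hFi.mono_set hAs) hAm
      (fun z _ => pt u hε z)
  have h3 : ∫ z in A, (D u ε z - 1 / 2) = (∫ z in A, D u ε z) - ∫ z in A, (1 / 2 : ℝ) :=
    integral_sub (hDi.mono_set hAs) hcI
  have h4 : Real.pi / 2 * (2 * δ - δ) ≤ ∫ z in A, D u ε z := by
    apply annulus _ _ _ _ _ hδ (by linarith) (fun z hz => cont_D hu hε hz)
      (fun z => D_nonneg u hε z)
    intro r hr
    exact circle hu hε (lt_of_lt_of_le hδ hr.1) hr.2 (hsig r hr).1 (hsig r hr).2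
  rw [area y δ hδ] at h3
  have hpi := Real.pi_gt_three
  have : 3 * Real.pi / 2 * δ ^ 2 ≤ Real.pi / 12 * δ := by
    nlinarith [mul_nonneg (mul_nonneg Real.pi_pos.le hδ.le) (sub_nonneg.2 hδ2)]
  have h5 : δ / 2 ≤ Real.pi / 2 * (2 * δ - δ) - Real.pi / 12 * δ := by
    nlinarith
  linarith

end

end

end Pool.Agent.D0H70.YN
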