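import Pool.Agent.D0H81.YN.StmL
import Pool.Agent.Q73.AD.TG4
import Pool.Agent.Q73.AD.TG2

/-!
# YN block, package L4: the lower bound for the nodal length on a closed surface
-/

set_option autoImplicit false
open MeasureTheory Filter Topology Complex Metric Set
open scoped ContDiff ENNReal NNReal

namespace Pool.Agent.D0H70.YN

open Pool.Agent.Q73.NL (dx dy lap)
open Pool.Agent.Q73.AD
open Pool.Agent.Q73.AD.TG4
open Pool.Agent.D0H81.YN

universe u v

/-- lengths in the chart and on the surface -/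
theorem transfer {M : Type u} [MetricSpace M] [MeasurableSpace M] [BorelSpace M]
    {φ : ℂ → M} {ρ : ℂ → ℝ} {V : Set ℂ} {z : ℂ} {R c L δ : ℝ} (hG : Good φ ρ V z R c L δ)
    {S : Set ℂ} (hS : S ⊆ closedBall z (2 * R)) {a : ℝ}
    (h : ENNReal.ofReal a ≤ (μH[1] : Measure ℂ) S) :
    ENNReal.ofReal (c * a) ≤ (μH[1] : Measure M) (φ '' S) := by
  classical
  have hc := hG.c_pos
  have hinj : InjOn φ (closedBall z (2 * R)) := by
    intro w hw w' hw' he
    have h1 := (hG.lip w hw w' hw').1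
    rw [he, dist_self] at h1
    have h2 : ‖w - w'‖ ≤ 0 := by
      by_contra h3
      push Not at h3
      have := mul_pos hc h3
      linarith
    exact sub_eq_zero.1 (norm_le_zero_iff.1 h2)
  set g : M → ℂ := Function.invFunOn φ (closedBall z (2 * R)) with hg
  have hgi : ∀ w ∈ closedBall z (2 * R), g (φ w) = w := fun w hw => hinj.leftInvOn_invFunOn hw
  have hlip : LipschitzOnWith (Real.toNNReal c⁻¹) g (φ '' S) := by
    apply LipschitzOnWith.of_dist_le_mul
    rintro _ ⟨w, hw, rfl⟩ _ ⟨w', hw', rfl⟩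
    rw [hgi w (hS hw), hgi w' (hS hw'), dist_eq_norm, Real.coe_toNNReal _ (by positivity)]
    have h1 := (hG.lip w (hS hw) w' (hS hw')).1
    rw [inv_mul_eq_div, le_div_iff₀ hc]
    linarith
  have him : g '' (φ '' S) = S := by
    ext w
    constructor
    · rintro ⟨_, ⟨w', hw', rfl⟩, rfl⟩
      rwa [hgi w' (hS hw')]
    · intro hw
      exact ⟨φ w, ⟨w, hw, rfl⟩, hgi w (hS hw)⟩
  have h1 := hlip.hausdorffMeasure_image_le (d := 1) zero_le_one
  rw [him, ENNReal.rpow_one] at h1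
  rw [ENNReal.ofReal_mul hc.le]
  calc ENNReal.ofReal c * ENNReal.ofReal a ≤ ENNReal.ofReal c * (ENNReal.ofReal c⁻¹ * μH[1] (φ '' S)) :=
        mul_le_mul_right (h.trans h1) _
    _ = μH[1] (φ '' S) := by
        rw [← mul_assoc, ← ENNReal.ofReal_mul hc.le, mul_inv_cancel₀ hc.ne', ENNReal.ofReal_one,
          one_mul]

/-- the length near a zero in a good piece -/
theorem nearZero (h2 : S_L2) {M : Type u} [MetricSpace M] {φ : ℂ → M} {ρ : ℂ → ℝ} {V : Set ℂ}
    {z : ℂ} {R c L δ : ℝ} (hG : Good φ ρ V z R c L δ) (hρ : ∀ w ∈ V, 0 ≤ ρ w) {lam : ℝ}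
    (hlam : 0 < lam) {f : M → ℝ} (hsm : ContDiffOn ℝ ∞ (fun w => f (φ w)) V)
    (heq : ∀ w ∈ V, lap (fun w => f (φ w)) w + lam * ρ w * f (φ w) = 0)
    (hpos : ∀ x r, 0 < r → 0 < sn f (ball x r)) {y : ℂ} {r : ℝ} (hr : 0 < r)
    (hrR : closedBall y r ⊆ closedBall z (2 * R)) (hy : y ∈ closedBall z (3 * R / 2))
    (hy0 : f (φ y) = 0) (hK : lam * L * r ^ 2 ≤ 1) :
    ENNReal.ofReal r ≤ (μH[1] : Measure ℂ) {w | w ∈ ball y r ∧ f (φ w) = 0} := by
  refine h2 y r (lam * L) (fun w => lam * ρ w) (fun w => f (φ w)) hr hK ?_ ?_ hy0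
  · intro w hw
    have hwV : w ∈ V := hG.sub (hrR hw)
    refine ⟨hsm.contDiffAt (hG.opn.mem_nhds hwV), mul_nonneg hlam.le (hρ w hwV), ?_, heq w hwV⟩
    have := (hG.bd w (hrR hw)).1
    exact mul_le_mul_of_nonneg_left ((le_abs_self _).trans this) hlam.le
  · intro r' hr' _
    have hc := hG.c_pos
    have h3 := hpos (φ y) (min δ (c * r')) (lt_min hG.δ_pos (by positivity))
    by_contra hcon
    push Not at hcon
    have h4 : sn f (ball (φ y) (min δ (c * r'))) ≤ 0 := by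
      unfold sn
      apply Real.sSup_le _ le_rfl
      rintro _ ⟨x, hx, rfl⟩
      have hx1 : x ∈ ball (φ y) δ := ball_subset_ball (min_le_left _ _) hx
      obtain ⟨w', hw', rfl⟩ := hG.surj y hy hx1
      have h5 := (hG.lip w' hw' y (closedBall_subset_closedBall (by linarith [hG.R_pos]) hy)).1
      have h6 : dist (φ w') (φ y) < c * r' := lt_of_lt_of_le hx (min_le_right _ _)
      have h7 : ‖w' - y‖ < r' := lt_of_mul_lt_mul_left (h5.trans_lt h6) hc.le
      have h8 : w' ∈ ball y r' := by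
        rw [mem_ball, dist_eq_norm]; exact h7
      have h9 := hcon w' h8
      show |f (φ w')| ≤ 0
      rw [h9, abs_zero]
    linarith

/-- disjoint sets -/
theorem sum_disj (ν : Measure ℂ) (Z : Set ℂ) {κ : Type} (J : Finset κ) (B : κ → Set ℂ)
    (hB : ∀ i, MeasurableSet (B i)) (hd : (J : Set κ).PairwiseDisjoint B) (e : ℝ≥0∞)
    (h : ∀ i ∈ J, e ≤ ν (Z ∩ B i)) : J.card * e ≤ ν Z := by
  have h1 : (ν.restrict Z) (⋃ i ∈ J, B i) = ∑ i ∈ J, (ν.restrict Z) (B i) :=
    measure_biUnion_finset hd (fun i _ => hB i)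
  calc (J.card : ℝ≥0∞) * e = ∑ i ∈ J, e := by rw [Finset.sum_const, nsmul_eq_mul]
    _ ≤ ∑ i ∈ J, (ν.restrict Z) (B i) := by
        apply Finset.sum_le_sum
        intro i hi
        rw [Measure.restrict_apply (hB i), inter_comm]
        exact h i hi
    _ = (ν.restrict Z) (⋃ i ∈ J, B i) := h1.symm
    _ ≤ (ν.restrict Z) univ := measure_mono (subset_univ _)
    _ = ν Z := by rw [Measure.restrict_apply_univ]

/-- centres of the grid -/
noncomputable def gp (z : ℂ) (t : ℝ) (m : ℕ × ℕ) : ℂ := z + (4 * t * (m.1 : ℝ) : ℝ) + (4 * t * (m.2 : ℝ) : ℝ) * I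

theorem gp_dist {z : ℂ} {t : ℝ} (ht : 0 < t) {m m' : ℕ × ℕ} (h : m ≠ m') :
    4 * t ≤ ‖gp z t m - gp z t m'‖ := by
  have e : gp z t m - gp z t m' = ((4 * t * ((m.1 : ℝ) - m'.1) : ℝ) : ℂ) +
      ((4 * t * ((m.2 : ℝ) - m'.2) : ℝ) : ℂ) * I := by
    unfold gp
    push_cast
    ring
  have hre : (gp z t m - gp z t m').re = 4 * t * ((m.1 : ℝ) - m'.1) := by
    rw [e]; simp
  have him : (gp z t m - gp z t m').im = 4 * t * ((m.2 : ℝ) - m'.2) := by
    rw [e]; simp
  have key : ∀ a b : ℕ, a ≠ b → 1 ≤ |(a : ℝ) - b| := by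
    intro a b hab
    have h1 : (1 : ℤ) ≤ |(a : ℤ) - b| := by
      apply Int.one_le_abs
      omega
    exact_mod_cast h1
  by_cases h1 : m.1 = m'.1
  · have h2 : m.2 ≠ m'.2 := fun h3 => h (Prod.ext h1 h3)
    refine le_trans ?_ (Complex.abs_im_le_norm _)
    rw [him, abs_mul, abs_of_pos (by linarith : (0:ℝ) < 4 * t)]
    nlinarith [key _ _ h2]
  · refine le_trans ?_ (Complex.abs_re_le_norm _)
    rw [hre, abs_mul, abs_of_pos (by linarith : (0:ℝ) < 4 * t)]
    nlinarith [key _ _ h1]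

theorem gp_norm {z : ℂ} {t : ℝ} (ht : 0 < t) {n : ℕ} {m : ℕ × ℕ} (h1 : m.1 ≤ n) (h2 : m.2 ≤ n) :
    ‖gp z t m - z‖ ≤ 8 * t * n := by
  have e : gp z t m - z = ((4 * t * (m.1 : ℝ) : ℝ) : ℂ) + ((4 * t * (m.2 : ℝ) : ℝ) : ℂ) * I := by
    unfold gp; ring
  have hre : (gp z t m - z).re = 4 * t * (m.1 : ℝ) := by
    rw [e]; simp
  have him : (gp z t m - z).im = 4 * t * (m.2 : ℝ) := by
    rw [e]; simp
  refine (Complex.norm_le_abs_re_add_abs_im _).trans ?_
  rw [hre, him, abs_of_nonneg (by positivity), abs_of_nonneg (by positivity)]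
  have h1' : (m.1 : ℝ) ≤ n := by exact_mod_cast h1
  have h2' : (m.2 : ℝ) ≤ n := by exact_mod_cast h2
  nlinarith

/-- large eigenvalues: the length in one good piece -/
theorem large (h2 : S_L2) (h3 : S_L3) (M : Type u) [MetricSpace M] [MeasurableSpace M]
    [BorelSpace M] (φ : ℂ → M) (ρ : ℂ → ℝ) (V : Set ℂ) (z : ℂ) (R c L δ : ℝ)
    (hG : Good φ ρ V z R c L δ) (hρ : ∀ w ∈ V, 0 < ρ w) :
    ∃ lam₀ c₁ : ℝ, 0 < lam₀ ∧ 0 < c₁ ∧ ∀ (lam : ℝ) (f : M → ℝ), lam₀ ≤ lam →
      ContDiffOn ℝ ∞ (fun w => f (φ w)) V →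
      (∀ w ∈ V, lap (fun w => f (φ w)) w + lam * ρ w * f (φ w) = 0) →
      (∀ x r, 0 < r → 0 < sn f (ball x r)) →
      ENNReal.ofReal (c₁ * Real.sqrt lam) ≤ (μH[1] : Measure M) {x | f x = 0} := by
  classical
  obtain ⟨K₀, hK₀, H3⟩ := h3
  have hR := hG.R_pos
  have hc := hG.c_pos
  have hL := hG.L_ge
  obtain ⟨m, hm, hmρ⟩ : ∃ m : ℝ, 0 < m ∧ ∀ w ∈ closedBall z (2 * R), m ≤ ρ w := by
    have hcont : ContinuousOn ρ (closedBall z (2 * R)) := hG.smooth.continuousOn.mono hG.sub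
    obtain ⟨w₀, hw₀, hmin⟩ := (isCompact_closedBall z (2 * R)).exists_isMinOn
      ⟨z, mem_closedBall_self (by linarith)⟩ hcont
    exact ⟨ρ w₀, hρ w₀ (hG.sub hw₀), fun w hw => hmin hw⟩
  set τ : ℝ := Real.sqrt (K₀ / m) with hτ
  have hτ0 : 0 < τ := Real.sqrt_pos.2 (by positivity)
  have hτ2 : m * τ ^ 2 = K₀ := by
    rw [hτ, Real.sq_sqrt (by positivity)]
    field_simp
  set κ : ℝ := min τ (1 / Real.sqrt L) with hκ
  have hsL : 0 < Real.sqrt L := Real.sqrt_pos.2 (by linarith)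
  have hκ0 : 0 < κ := lt_min hτ0 (by positivity)
  have hκL : L * κ ^ 2 ≤ 1 := by
    have h1 : κ ≤ 1 / Real.sqrt L := min_le_right _ _
    have h2 : κ ^ 2 ≤ (1 / Real.sqrt L) ^ 2 := by gcongr
    rw [div_pow, Real.sq_sqrt (by linarith), one_pow] at h2
    calc L * κ ^ 2 ≤ L * (1 / L) := by gcongr
      _ = 1 := by field_simp
  refine ⟨(16 * τ / R) ^ 2, c * (κ * (R / (32 * τ)) ^ 2), by positivity, by positivity, ?_⟩
  intro lam f hlam hsm heq hpos
  have hl0 : 0 < lam := lt_of_lt_of_le (by positivity) hlam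
  set s : ℝ := Real.sqrt lam with hs
  have hs0 : 0 < s := Real.sqrt_pos.2 hl0
  have hs2 : s ^ 2 = lam := Real.sq_sqrt hl0.le
  have hsR : 16 * τ / R ≤ s := by
    apply Real.le_sqrt_of_sq_le hlam
  set t : ℝ := τ / s with ht
  have ht0 : 0 < t := by positivity
  have htR : 16 * t ≤ R := by
    rw [ht]
    rw [div_le_iff₀ hR] at hsR
    rw [mul_div_assoc', div_le_iff₀ hs0]
    linarith
  set r : ℝ := κ / s with hr
  have hr0 : 0 < r := by positivity
  have hrt : r ≤ t := by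
    rw [hr, ht]
    exact div_le_div_of_nonneg_right (min_le_left _ _) hs0.le
  have hrK : lam * L * r ^ 2 ≤ 1 := by
    have : lam * L * r ^ 2 = L * κ ^ 2 := by
      rw [hr, ← hs2]; field_simp
    rw [this]; exact hκL
  have htK : K₀ ≤ lam * m * t ^ 2 := by
    have : lam * m * t ^ 2 = m * τ ^ 2 := by
      rw [ht, ← hs2]; field_simp
    rw [this, hτ2]
  set n : ℕ := ⌊R / (16 * t)⌋₊ with hn
  have hq1 : 1 ≤ R / (16 * t) := by
    rw [le_div_iff₀ (by positivity)]; linarith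
  have hn1 : (n : ℝ) ≤ R / (16 * t) := Nat.floor_le (by positivity)
  have hn2 : R / (32 * t) ≤ n := by
    have h1 : R / (16 * t) < n + 1 := Nat.lt_floor_add_one _
    have h2 : 1 ≤ n := Nat.le_floor (by exact_mod_cast hq1)
    have h2' : (1 : ℝ) ≤ n := by exact_mod_cast h2
    have h3 : R / (32 * t) = R / (16 * t) / 2 := by field_simp; ring
    rw [h3]; linarith
  have hnR : 8 * t * n ≤ R / 2 := by
    have : 8 * t * n ≤ 8 * t * (R / (16 * t)) := by gcongr
    refine this.trans (le_of_eq ?_)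
    field_simp
    ring
  set Z : Set ℂ := {w | w ∈ closedBall z (2 * R) ∧ f (φ w) = 0} with hZ
  set J : Finset (ℕ × ℕ) := Finset.range n ×ˢ Finset.range n with hJ
  have hJc : (J.card : ℝ) = (n : ℝ) ^ 2 := by
    rw [hJ, Finset.card_product, Finset.card_range]; push_cast; ring
  have hlen : (J.card : ℝ≥0∞) * ENNReal.ofReal r ≤ (μH[1] : Measure ℂ) Z := by
    apply sum_disj _ Z J (fun m => ball (gp z t m) (2 * t)) (fun _ => measurableSet_ball)
    · intro a _ b _ hab
      apply ball_disjoint_ball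
      rw [dist_eq_norm]
      linarith [gp_dist (z := z) ht0 hab]
    · intro a ha
      rw [hJ, Finset.mem_product, Finset.mem_range, Finset.mem_range] at ha
      have hpz : ‖gp z t a - z‖ ≤ R / 2 := (gp_norm ht0 ha.1.le ha.2.le).trans hnR
      have hbs : ∀ w : ℂ, ‖w - gp z t a‖ ≤ 2 * t → w ∈ closedBall z R := by
        intro w hw
        rw [mem_closedBall, dist_eq_norm]
        have e : w - z = (w - gp z t a) + (gp z t a - z) := by ring
        rw [e]
        refine (norm_add_le _ _).trans ?_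
        linarith
      obtain ⟨y, hy, hy0⟩ := H3 (gp z t a) t (lam * m) (fun w => lam * ρ w) (fun w => f (φ w)) ht0
        (by positivity) htK (by
          intro w hw
          rw [mem_ball, dist_eq_norm] at hw
          have hwc : w ∈ closedBall z (2 * R) :=
            closedBall_subset_closedBall (by linarith) (hbs w (by linarith))
          have hwV : w ∈ V := hG.sub hwc
          refine ⟨hsm.contDiffAt (hG.opn.mem_nhds hwV), ?_, ?_, heq w hwV⟩
          · exact continuousAt_const.mul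
              ((hG.smooth.continuousOn.continuousAt (hG.opn.mem_nhds hwV)))
          · exact mul_le_mul_of_nonneg_left (hmρ w hwc) hl0.le)
      rw [mem_ball, dist_eq_norm] at hy
      have hsub : ∀ w ∈ closedBall y r, ‖w - gp z t a‖ < 2 * t := by
        intro w hw
        rw [mem_closedBall, dist_eq_norm] at hw
        have e : w - gp z t a = (w - y) + (y - gp z t a) := by ring
        rw [e]
        refine (norm_add_le _ _).trans_lt ?_
        linarith
      have hyc : y ∈ closedBall z R := hbs y (by linarith)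
      have h4 := nearZero h2 hG (fun w hw => (hρ w hw).le) hl0 hsm heq hpos (y := y) hr0
        (fun w hw => closedBall_subset_closedBall (by linarith) (hbs w (hsub w hw).le))
        (closedBall_subset_closedBall (by linarith) hyc) hy0 hrK
      refine h4.trans (measure_mono ?_)
      rintro w ⟨hw1, hw2⟩
      have hw3 := hsub w (ball_subset_closedBall hw1)
      refine ⟨⟨closedBall_subset_closedBall (by linarith) (hbs w hw3.le), hw2⟩, ?_⟩
      rw [mem_ball, dist_eq_norm]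
      exact hw3
  have hlen2 : ENNReal.ofReal ((n : ℝ) ^ 2 * r) ≤ (μH[1] : Measure ℂ) Z := by
    refine le_trans (le_of_eq ?_) hlen
    rw [← hJc, ENNReal.ofReal_mul (by positivity), ENNReal.ofReal_natCast]
  have h5 := transfer hG (S := Z) (fun w hw => hw.1) hlen2
  refine le_trans ?_ (h5.trans (measure_mono ?_))
  · apply ENNReal.ofReal_le_ofReal
    have e1 : c * (κ * (R / (32 * τ)) ^ 2) * s = c * ((R / (32 * t)) ^ 2 * r) := by
      rw [ht, hr]
      field_simp
    rw [e1]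
    gcongr
  · rintro _ ⟨w, hw, rfl⟩
    exact hw.2

/-- L4 -/
theorem l4_of (h1 : S_L1.{u, v}) (h2 : S_L2) (h3 : S_L3) (hg1 : G1.{u, v}) (hg2 : G2.{u, v}) :
    S_L4.{u, v} := by
  classical
  intro M ι _ _ _ _ _ U φ ρ hA hρ
  obtain ⟨n, i, z, R, c, L, δ, hG, hcov⟩ := hg2 M ι U φ ρ hA
  obtain ⟨x₀⟩ : Nonempty M := inferInstance
  obtain ⟨a₀, -⟩ := hcov x₀
  obtain ⟨lam₀, c₁, hlam₀, hc₁, H⟩ := large h2 h3 M (φ (i a₀)) (ρ (i a₀)) (U (i a₀)) (z a₀) (R a₀)
    c L δ (hG a₀) (hρ (i a₀))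
  have hc := (hG a₀).c_pos
  have hL := (hG a₀).L_ge
  have : Nonempty (Fin n) := ⟨a₀⟩
  obtain ⟨a₁, ha₁⟩ := Finite.exists_min R
  set r : ℝ := min (R a₁ / 2) (1 / Real.sqrt (lam₀ * L)) with hr
  have hLL : 0 < lam₀ * L := by positivity
  have hr0 : 0 < r := lt_min (by have := (hG a₁).R_pos; positivity)
    (by have := Real.sqrt_pos.2 hLL; positivity)
  have hrK : lam₀ * L * r ^ 2 ≤ 1 := by
    have e1 : r ≤ 1 / Real.sqrt (lam₀ * L) := min_le_right _ _
    have e2 : r ^ 2 ≤ (1 / Real.sqrt (lam₀ * L)) ^ 2 := by gcongr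
    rw [div_pow, Real.sq_sqrt hLL.le, one_pow] at e2
    calc lam₀ * L * r ^ 2 ≤ lam₀ * L * (1 / (lam₀ * L)) := by gcongr
      _ = 1 := by field_simp
  have hs0 : 0 < Real.sqrt lam₀ := Real.sqrt_pos.2 hlam₀
  refine ⟨min c₁ (c * r / Real.sqrt lam₀), lt_min hc₁ (by positivity), ?_⟩
  intro lam f hlam hf hne
  have hpos : ∀ (x : M) (r : ℝ), 0 < r → 0 < sn f (ball x r) := by
    intro x r hr
    have hb : BddAbove ((fun x => |f x|) '' Set.univ) :=
      isCompact_univ.bddAbove_image (cont hA hf).abs.continuousOn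
    obtain ⟨Cr, -, hgrr⟩ := hg1 M ι U φ ρ hA r hr
    obtain ⟨x₁, hx₁⟩ := hne
    have h4 := (abs_pos.2 hx₁).trans_le ((le_sn hb x₁).trans (hgrr lam f hlam.le hf x))
    exact (mul_pos_iff_of_pos_left (Real.exp_pos _)).1 h4
  rcases le_total lam₀ lam with hl | hl
  · refine le_trans ?_ (H lam f hl (hf (i a₀)).1 (hf (i a₀)).2 hpos)
    apply ENNReal.ofReal_le_ofReal
    gcongr
    exact min_le_left _ _
  · obtain ⟨x, hx⟩ := h1 M ι U φ ρ hA hρ lam f hlam hf hne
    obtain ⟨a, w, hw, rfl⟩ := hcov x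
    have hRa : r ≤ R a / 2 := (min_le_left _ _).trans (by linarith [ha₁ a])
    have hRp := (hG a).R_pos
    have hK : lam * L * r ^ 2 ≤ 1 := by
      refine le_trans ?_ hrK
      gcongr
    have hsub : closedBall w r ⊆ closedBall (z a) (2 * R a) := by
      apply closedBall_subset_closedBall'
      rw [mem_closedBall] at hw
      linarith
    have h4 := nearZero h2 (hG a) (fun w hw => (hρ (i a) w hw).le) hlam (hf (i a)).1 (hf (i a)).2
      hpos (y := w) hr0 hsub (closedBall_subset_closedBall (by linarith) hw) hx hK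
    have h5 := transfer (hG a) (S := {w' | w' ∈ ball w r ∧ f (φ (i a) w') = 0})
      (fun w' hw' => hsub (ball_subset_closedBall hw'.1)) h4
    refine le_trans ?_ (h5.trans (measure_mono ?_))
    · apply ENNReal.ofReal_le_ofReal
      calc min c₁ (c * r / Real.sqrt lam₀) * Real.sqrt lam
          ≤ c * r / Real.sqrt lam₀ * Real.sqrt lam₀ := by
            gcongr
            exact min_le_right _ _
        _ = c * r := by field_simp
    · rintro _ ⟨w', hw', rfl⟩
      exact hw'.2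

end Pool.Agent.D0H70.YN
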